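import Mathlib
import Pool.Agent.W_03a799_h55.FinC

/-!
# MP_03a799_pr: the moments of the critical 2d stochastic heat flow grow like `exp (exp (Θ(n)))`

Let `S` be a random measure on `ℝ² × ℝ²` which is a limit in distribution of the random measures
`u^ε_{s,t}(x,y) dx dy`, where `u^ε` solves the stochastic heat equation driven by white noise mollified at
scale `ε`, with noise strength in the critical window.  For all nonnegative, not almost everywhere vanishing
`φ, ψ ∈ L²(ℝ²)` the moments `M_n = E[(∬ φ(x) ψ(y) S(dx,dy))^n]` satisfy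
`exp (exp (c n)) ≤ M_n ≤ exp (exp (C n))` for all large `n`, that is `c n ≤ log log M_n ≤ C n`.
-/

set_option autoImplicit false

open MeasureTheory Filter Topology ProbabilityTheory SHF
open scoped ENNReal NNReal

universe u v w

namespace Pool.Agent.Results.MP_03a799_pr.MomentGrowth

theorem result {j : R2 → ℝ} (hj : Moll j) {θ : ℝ} {β : ℝ → ℝ}
    (hβ : CritWin θ (fun ε => β ε ^ 2)) {s t : ℝ} (hst : s < t) {φ ψ : R2 → ℝ}
    (hφ : L2P φ) (hψ : L2P ψ) :
    ∃ c C : ℝ, 0 < c ∧ 0 < C ∧ ∃ n0 : ℕ, ∀ n : ℕ, n0 ≤ n →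
      ∀ (Ω₀ : Type w) [MeasurableSpace Ω₀] (Q₀ : Measure Ω₀) [IsProbabilityMeasure Q₀]
        (S : Ω₀ → Measure (R2 × R2)), IsSHF.{u, v, w} j β s t Q₀ S →
        ENNReal.ofReal (Real.exp (Real.exp (c * n))) ≤ Mn Q₀ S φ ψ n ∧
        Mn Q₀ S φ ψ n ≤ ENNReal.ofReal (Real.exp (Real.exp (C * n))) :=
  shf_moments hj hβ hst hφ hψ

end Pool.Agent.Results.MP_03a799_pr.MomentGrowth
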